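import Pool.Agent.H66.ODM.G9

/-!
# Oda's question in dimension three

Every smooth lattice polytope in `ℝ³` has the integer decomposition property.
The definitions `IsSmooth` and `HasIDP` are in `Pool/Agent/H66/OD/Defs.lean`.
-/

namespace Pool.Agent.Results.MP_a35d42_co.DimensionThree

/-- Every smooth lattice polytope in `ℝ³` has the integer decomposition property. -/
theorem result : ∀ P : Set (Fin 3 → ℝ), H66OD.IsSmooth P → H66OD.HasIDP P :=
  fun _ hP => H66OD.fin hP

end Pool.Agent.Results.MP_a35d42_co.DimensionThree
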