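import Pool.Agent.H19.P4.Main

/-!
# Oda's question for smooth polytopes with at most `d + 4` facets

The definitions `IsSmooth` (smooth lattice polytope) and `HasIDP` (integer decomposition property) are in
`Pool/Agent/H66/OD/Defs.lean`.
-/

namespace Pool.Agent.Results.MP_a35d42_co.FewFacets

open H66OD Matrix

/-- Let `P` be a smooth lattice polytope in `ℝ^d`, `d` arbitrary, which is an intersection of `d + 4` closed
half-spaces, i.e. `P` has at most `d + 4` facets. Then `P` has the integer decomposition property. -/
theorem result : ∀ (d : ℕ) (P : Set (Fin d → ℝ)), IsSmooth P →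
    (∃ (n : Fin (d + 4) → (Fin d → ℝ)) (b : Fin (d + 4) → ℝ), P = {x | ∀ i, n i ⬝ᵥ x ≤ b i}) →
    HasIDP P :=
  fun d P hP hf => Pool.Agent.H19.P4.main d P hP hf

end Pool.Agent.Results.MP_a35d42_co.FewFacets
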