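import Pool.Agent.H98.OI.Cor

/-!
# Oda's question for smooth polytopes in which edges leaving short simplex faces are long

The definitions `IsSmooth` and `HasIDP` are in `Pool/Agent/H66/OD/Defs.lean`, the definition `IsSimplexFace` is in
`Pool/Agent/H98/OD/Defs.lean`, and `LongLeavingEdges` is in `Pool/Agent/H98/OI/Defs.lean`.

Consequences, proved in `Pool/Agent/H98/OI/Cor.lean`: all edges of `P` of lattice length at least `d / 2`
(`idp_of_half`); the multiples `c P`, `2 c ≥ d`, of a smooth lattice polytope `P` (`idp_of_multiple`).
-/

namespace Pool.Agent.Results.MP_a35d42_co.LeavingEdges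

open H66OD H98OD

/-- Let `P` be a smooth lattice polytope in `ℝ^d` such that, whenever `F` is a face of `P` which is a simplex of
dimension `k`, `2 ≤ k < d`, contained in no larger simplex face of `P`, with an edge of lattice length `N < k`,
all edges of `P` which meet `F` in one vertex only have lattice length at least `d - N`. Then `P` has the integer
decomposition property. -/
theorem result : ∀ (d : ℕ) (P : Set (Fin d → ℝ)), IsSmooth P → LongLeavingEdges P → HasIDP P :=
  fun _ _ hP h => idp_of_leaving hP h

end Pool.Agent.Results.MP_a35d42_co.LeavingEdges
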