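import Pool.Agent.H19.FE.Main

/-!
# Oda's question and linear forms with values 1 and -1 on smooth Fano polytopes

The definitions `IsSmooth` (smooth lattice polytope) and `HasIDP` (integer decomposition property) are in
`Pool/Agent/H66/OD/Defs.lean`, the definitions `DualPolytope` and `OddSplit` in `Pool/Agent/H19/FE/Defs.lean`.
-/

namespace Pool.Agent.Results.MP_a35d42_co.OddSplitting

open H66OD Matrix Pool.Agent.H19.FE

/-- Every smooth lattice polytope has the integer decomposition property if and only if the following holds: whenever
`A` is a finite set of integer vectors such that the polytope `{x : a · x ≤ 1 for a ∈ A}` is a smooth lattice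
polytope (so that `A` contains the vertices of a smooth Fano polytope) and some integral linear form takes only odd
values on `A`, then some integral linear form takes only the values `1` and `-1` on `A`. -/
theorem result :
    (∀ (d : ℕ) (P : Set (Fin d → ℝ)), IsSmooth P → HasIDP P) ↔
      ∀ (d : ℕ) (A : Finset (Fin d → ℤ)), IsSmooth (DualPolytope A) → OddSplit A :=
  Pool.Agent.H19.FE.main.1

end Pool.Agent.Results.MP_a35d42_co.OddSplitting
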